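import Mathlib
import Pool.Agent.Lib.MP_44a246_nt.Family
import Pool.Agent.Lib.MP_44a246_nt.Tangent
import Pool.Agent.Lib.MP_44a246_nt.Main2

/-!
Derivations vanishing on a subfield `k` of `K` of finite transcendence degree over a field `k₀` of
constants: a full family with uniform denominators.
-/

namespace Pool.Agent.Lib.MP_44a246_ntM

open Pool.Agent.Lib.MP_e52354_nt Pool.Agent.Lib.MP_44a246_nt Polynomial

universe u v w

section TrBasis

variable {k₀ k K : Type*} [Field k₀] [Field k] [Field K] [Algebra k₀ k] [Algebra k K]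
  [Algebra k₀ K] [IsScalarTower k₀ k K]

/-- a finite transcendence basis of `k` over `k₀`, together with a family which is algebraically
independent over `k` -/
theorem exists_basis_sum [FinTrdeg k₀ k] {T : Type*} {c : T → K}
    (hc : AlgebraicIndependent k c) :
    ∃ (m : ℕ) (b : Fin m → k), Algebra.IsAlgebraic (IntermediateField.adjoin k₀ (Set.range b)) k ∧
      AlgebraicIndependent k₀ (Sum.elim c (fun j => algebraMap k K (b j))) := by
  obtain ⟨s, hs⟩ := exists_finset_isTranscendenceBasis k₀ k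
  obtain ⟨m, ⟨e⟩⟩ := Finite.exists_equiv_fin s
  let b : Fin m → k := fun j => (e.symm j : k)
  have hb : IsTranscendenceBasis k₀ b := hs.comp_equiv e.symm
  refine ⟨m, b, hb.isAlgebraic_field, ?_⟩
  exact hb.1.sumElim_comp hc

end TrBasis

section Kill

variable {k₀ k L : Type*} [Field k₀] [CharZero k₀] [Field k] [Field L] [Algebra k₀ k]
  [Algebra k L] [Algebra k₀ L] [IsScalarTower k₀ k L]

/-- a derivation vanishing on `k₀` and on a transcendence basis of `k` vanishes on `k` -/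
theorem kills_of_basis {m : ℕ} {b : Fin m → k}
    (hb : Algebra.IsAlgebraic (IntermediateField.adjoin k₀ (Set.range b)) k)
    (E : Derivation ℤ L L) (hE : ∀ c : k₀, E (algebraMap k₀ L c) = 0)
    (hEb : ∀ j, E (algebraMap k L (b j)) = 0) (c : k) : E (algebraMap k L c) = 0 := by
  have h1 := der_eq_zero (k₀ := k₀) (A := k) (V := L)
    ((toLinearDer E hE).compAlgebraMap k) (Set.range b) (x := c) ?_ (hb.isAlgebraic c)
  · exact h1
  · rintro _ ⟨j, rfl⟩
    exact hEb j

end Kill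

section Data3

variable {k₀ k : Type*} {κ : Type u} {K : Type v} [Field k₀] [CharZero k₀] [Field k] [Field κ]
  [Field K] [Algebra k₀ κ] [Algebra κ K] [Algebra k₀ K] [IsScalarTower k₀ κ K]
  [Algebra k₀ k] [Algebra k K] [IsScalarTower k₀ k K] [FinTrdeg k₀ k]
  [Algebra κ[X] K] [IsScalarTower κ κ[X] K]
  [Algebra (RatFunc κ) K] [IsScalarTower κ[X] (RatFunc κ) K]
  [Algebra (Rinf κ) K] [IsScalarTower (Rinf κ) (RatFunc κ) K]
  [FiniteDimensional (RatFunc κ) K]

variable {n : ℕ} {ι : Type*} [Fintype ι] [DecidableEq ι] {d : ι → ℕ} {aK : ι → Expo n → K}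

theorem int_comb3 {R : Type*} [CommRing R] [Algebra R K] {δ : R} {e y : K} {S J : Type*}
    (T : S → Finset (Expo n)) [Fintype S] [Fintype J] (f g : S → Expo n → K) (f' g' : J → K)
    (h0 : IsIntegral R (algebraMap R K δ * e))
    (hf : ∀ i, ∀ I ∈ T i, IsIntegral R (algebraMap R K δ * f i I))
    (hg : ∀ i, ∀ I ∈ T i, IsIntegral R (algebraMap R K δ * g i I))
    (hf' : ∀ j, IsIntegral R (algebraMap R K δ * f' j))
    (hg' : ∀ j, IsIntegral R (algebraMap R K δ * g' j))
    (hy : y = e - ∑ i, ∑ I ∈ T i, f i I * g i I - ∑ j, f' j * g' j) :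
    IsIntegral R (algebraMap R K (δ * δ) * y) := by
  have h2 : IsIntegral R (algebraMap R K (δ * δ) * ∑ j, f' j * g' j) := by
    have h3 : algebraMap R K (δ * δ) * ∑ j, f' j * g' j =
        ∑ j, (algebraMap R K δ * f' j) * (algebraMap R K δ * g' j) := by
      rw [Finset.mul_sum, map_mul]
      exact Finset.sum_congr rfl fun j _ => by ring
    rw [h3]
    exact IsIntegral.sum _ fun j _ => (hf' j).mul (hg' j)
  have h1 := int_comb T f g h0 hf hg rfl
  rw [hy, mul_sub]
  exact h1.sub h2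

theorem exists_data3 (ht : Transcendental κ (algebraMap κ[X] K X))
    (halg : Algebra.IsAlgebraic (IntermediateField.adjoin κ {algebraMap κ[X] K X}) K)
    (hc : AlgebraicIndependent k
      (fun θ : {θ : ι × Expo n // θ.2 ∈ expo (Fin (n + 1)) (d θ.1)} => aK θ.1.1 θ.1.2)) (s : K) :
    ∃ (B : Type u) (_ : DecidableEq B) (z : B → K) (m : ℕ) (c' : Fin m → k)
      (DK : ι → Expo n → Derivation ℤ K K)
      (EK : B → Derivation ℤ K K) (D' : Fin m → Derivation ℤ K K) (e : B → ι → Expo n → K)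
      (e' : B → Fin m → K), DualFam d aK DK ∧
      (∀ b i, ∀ I ∈ expo (Fin (n + 1)) (d i), EK b (aK i I) = 0) ∧
      (∀ i I (c : k), DK i I (algebraMap k K c) = 0) ∧
      (∀ b (c : k), EK b (algebraMap k K c) = 0) ∧
      (∀ j (c : k₀), D' j (algebraMap k₀ K c) = 0) ∧
      (∀ j i, ∀ I ∈ expo (Fin (n + 1)) (d i), D' j (aK i I) = 0) ∧
      (∀ j j', D' j (algebraMap k K (c' j')) = if j = j' then 1 else 0) ∧
      Algebra.IsAlgebraic (IntermediateField.adjoin k₀ (Set.range z)) K ∧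
      (∀ b b', EK b (z b') + ∑ i, ∑ I ∈ expo (Fin (n + 1)) (d i), e b i I * DK i I (z b') +
        ∑ j, e' b j * D' j (z b') = if b = b' then 1 else 0) ∧
      (∃ δf : κ[X], δf ≠ 0 ∧
        (∀ i, ∀ I ∈ expo (Fin (n + 1)) (d i), ∀ b : K, IsIntegral κ[X] b →
          IsIntegral κ[X] (algebraMap κ[X] K δf * DK i I b)) ∧
        (∀ b, ∀ y : K, IsIntegral κ[X] y → IsIntegral κ[X] (algebraMap κ[X] K δf * EK b y)) ∧
        (∀ i, ∀ I ∈ expo (Fin (n + 1)) (d i), IsIntegral κ[X] (algebraMap κ[X] K δf * aK i I)) ∧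
        IsIntegral κ[X] (algebraMap κ[X] K δf * s) ∧
        IsIntegral κ[X] (algebraMap κ[X] K δf * s⁻¹)) ∧
      (∃ δi : Rinf κ, δi ≠ 0 ∧
        (∀ i, ∀ I ∈ expo (Fin (n + 1)) (d i), ∀ b : K, IsIntegral (Rinf κ) b →
          IsIntegral (Rinf κ) (algebraMap (Rinf κ) K δi * DK i I b)) ∧
        (∀ b, ∀ y : K, IsIntegral (Rinf κ) y →
          IsIntegral (Rinf κ) (algebraMap (Rinf κ) K δi * EK b y)) ∧
        (∀ i, ∀ I ∈ expo (Fin (n + 1)) (d i),
          IsIntegral (Rinf κ) (algebraMap (Rinf κ) K δi * aK i I)) ∧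
        IsIntegral (Rinf κ) (algebraMap (Rinf κ) K δi * s) ∧
        IsIntegral (Rinf κ) (algebraMap (Rinf κ) K δi * s⁻¹)) := by
  classical
  let T := {θ : ι × Expo n // θ.2 ∈ expo (Fin (n + 1)) (d θ.1)}
  have hT : Finite T := by
    have : Function.Injective (fun θ : T => (⟨θ.1.1, ⟨θ.1.2, θ.2⟩⟩ :
        Σ i, {I // I ∈ expo (Fin (n + 1)) (d i)})) := by
      rintro ⟨⟨i, I⟩, h⟩ ⟨⟨i', I'⟩, h'⟩ heq
      simp only [Sigma.mk.injEq] at heq
      obtain ⟨h1, h2⟩ := heq
      subst h1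
      simp only [heq_eq_eq, Subtype.mk.injEq] at h2
      subst h2
      rfl
    exact Finite.of_injective _ this
  have := Fintype.ofFinite T
  obtain ⟨m, c', hc'alg, hcc⟩ := exists_basis_sum (k₀ := k₀) hc
  let S : Finset K := (Finset.univ.image fun θ : T => aK θ.1.1 θ.1.2) ∪ {s, s⁻¹}
  have haS : ∀ i, ∀ I ∈ expo (Fin (n + 1)) (d i), aK i I ∈ S := fun i I hI =>
    Finset.mem_union_left _ (Finset.mem_image.mpr ⟨⟨(i, I), hI⟩, Finset.mem_univ _, rfl⟩)
  have hsS : s ∈ S := Finset.mem_union_right _ (by simp)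
  have hsS' : s⁻¹ ∈ S := Finset.mem_union_right _ (by simp)
  obtain ⟨B, iB, z, E, D, h1, h2, h3, ⟨δf, hf0, hf1, hf2, hf3, hf4⟩, ⟨δi, hi0, hi1, hi2, hi3, hi4⟩⟩ :=
    exists_family (k₀ := k₀) ht halg hcc S
  have h3a : ∀ (θ θ' : T), D (Sum.inl θ) (aK θ'.1.1 θ'.1.2) = if θ = θ' then 1 else 0 := by
    intro θ θ'
    have := h3 (Sum.inl θ) (Sum.inl θ')
    simpa using this
  have h3b : ∀ (θ : T) (j : Fin m), D (Sum.inl θ) (algebraMap k K (c' j)) = 0 := by
    intro θ j
    have := h3 (Sum.inl θ) (Sum.inr j)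
    simpa using this
  have h3c : ∀ (j : Fin m) (θ' : T), D (Sum.inr j) (aK θ'.1.1 θ'.1.2) = 0 := by
    intro j θ'
    have := h3 (Sum.inr j) (Sum.inl θ')
    simpa using this
  have h3d : ∀ (j j' : Fin m), D (Sum.inr j) (algebraMap k K (c' j')) = if j = j' then 1 else 0 := by
    intro j j'
    have := h3 (Sum.inr j) (Sum.inr j')
    simpa using this
  let DK : ι → Expo n → Derivation ℤ K K := fun i I =>
    if h : I ∈ expo (Fin (n + 1)) (d i) then derZ (D (Sum.inl ⟨(i, I), h⟩)) else 0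
  have hDK : ∀ i I (h : I ∈ expo (Fin (n + 1)) (d i)) y, DK i I y = D (Sum.inl ⟨(i, I), h⟩) y := by
    intro i I h y
    simp only [DK, dif_pos h]
    rfl
  let D' : Fin m → Derivation ℤ K K := fun j => derZ (D (Sum.inr j))
  have hD' : ∀ j y, D' j y = D (Sum.inr j) y := fun j y => rfl
  have hdual : DualFam d aK DK := by
    intro i I hI j J hJ
    rw [hDK i I hI, h3a ⟨(i, I), hI⟩ ⟨(j, J), hJ⟩]
    refine if_congr ?_ rfl rfl
    rw [Subtype.mk.injEq, Prod.mk.injEq]
  let EK : B → Derivation ℤ K K := fun b =>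
    derZ (E b) - ∑ i, ∑ I ∈ expo (Fin (n + 1)) (d i), E b (aK i I) • DK i I -
      ∑ j, E b (algebraMap k K (c' j)) • D' j
  have hEK : ∀ b y, EK b y = E b y -
      ∑ i, ∑ I ∈ expo (Fin (n + 1)) (d i), E b (aK i I) * DK i I y -
      ∑ j, E b (algebraMap k K (c' j)) * D' j y := by
    intro b y
    show (Derivation.coeFnAddMonoidHom (derZ (E b) -
      ∑ i, ∑ I ∈ expo (Fin (n + 1)) (d i), E b (aK i I) • DK i I -
      ∑ j, E b (algebraMap k K (c' j)) • D' j)) y = _
    rw [map_sub, map_sub, map_sum, map_sum, Pi.sub_apply, Pi.sub_apply, Finset.sum_apply,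
      Finset.sum_apply]
    simp only [map_sum, Finset.sum_apply]
    rfl
  have hDK0' : ∀ i I (c : k₀), DK i I (algebraMap k₀ K c) = 0 := by
    intro i I c
    by_cases h : I ∈ expo (Fin (n + 1)) (d i)
    · rw [hDK i I h, Derivation.map_algebraMap]
    · simp only [DK, dif_neg h]
      rfl
  have hDKb : ∀ i I j, DK i I (algebraMap k K (c' j)) = 0 := by
    intro i I j
    by_cases h : I ∈ expo (Fin (n + 1)) (d i)
    · rw [hDK i I h, h3b]
    · simp only [DK, dif_neg h]
      rfl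
  have hDK0 : ∀ i I (c : k), DK i I (algebraMap k K c) = 0 := fun i I =>
    kills_of_basis (k₀ := k₀) hc'alg (DK i I) (hDK0' i I) (hDKb i I)
  have hD'0 : ∀ j (c : k₀), D' j (algebraMap k₀ K c) = 0 := by
    intro j c
    rw [hD', Derivation.map_algebraMap]
  have hEK0' : ∀ b (c : k₀), EK b (algebraMap k₀ K c) = 0 := by
    intro b c
    rw [hEK, Derivation.map_algebraMap]
    simp [hDK0', hD'0]
  have hEKb : ∀ b j, EK b (algebraMap k K (c' j)) = 0 := by
    intro b j
    rw [hEK]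
    simp only [hDKb, mul_zero, Finset.sum_const_zero, sub_zero]
    rw [sub_eq_zero, Finset.sum_eq_single j]
    · rw [hD', h3d, if_pos rfl, mul_one]
    · intro j' _ hj'
      rw [hD', h3d, if_neg hj', mul_zero]
    · intro h; exact absurd (Finset.mem_univ _) h
  have hEK0 : ∀ b (c : k), EK b (algebraMap k K c) = 0 := fun b =>
    kills_of_basis (k₀ := k₀) hc'alg (EK b) (hEK0' b) (hEKb b)
  have hD'a : ∀ j i, ∀ I ∈ expo (Fin (n + 1)) (d i), D' j (aK i I) = 0 := by
    intro j i I hI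
    exact h3c j ⟨(i, I), hI⟩
  refine ⟨B, iB, z, m, c', DK, EK, D', fun b i I => E b (aK i I),
    fun b j => E b (algebraMap k K (c' j)), hdual, ?_, hDK0, hEK0, hD'0, hD'a, h3d, h2, ?_,
    ⟨δf * δf, mul_ne_zero hf0 hf0, ?_, ?_, ?_, ?_, ?_⟩,
    ⟨δi * δi, mul_ne_zero hi0 hi0, ?_, ?_, ?_, ?_, ?_⟩⟩
  · intro b j J hJ
    rw [hEK]
    have h5 : ∑ j', E b (algebraMap k K (c' j')) * D' j' (aK j J) = 0 :=
      Finset.sum_eq_zero fun j' _ => by rw [hD'a j' j J hJ, mul_zero]
    rw [h5, sub_zero, sub_eq_zero, Finset.sum_eq_single j]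
    · rw [Finset.sum_eq_single J]
      · rw [hdual j J hJ j J hJ, if_pos ⟨rfl, rfl⟩, mul_one]
      · intro I hI hIJ
        rw [hdual j I hI j J hJ, if_neg (fun h => hIJ h.2), mul_zero]
      · intro h; exact absurd hJ h
    · intro i _ hij
      refine Finset.sum_eq_zero fun I hI => ?_
      rw [hdual i I hI j J hJ, if_neg (fun h => hij h.1), mul_zero]
    · intro h; exact absurd (Finset.mem_univ _) h
  · intro b b'
    rw [hEK, ← h1 b b']
    ring
  · intro i I hI y hy
    rw [map_mul, mul_assoc, hDK i I hI]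
    exact isIntegral_algebraMap.mul (hf2 _ y hy)
  · intro b y hy
    exact int_comb3 (fun i => expo (Fin (n + 1)) (d i)) (fun i I => E b (aK i I))
      (fun i I => DK i I y) (fun j => E b (algebraMap k K (c' j))) (fun j => D' j y) (hf1 b y hy)
      (fun i I hI => hf3 b (Sum.inl ⟨(i, I), hI⟩))
      (fun i I hI => by rw [hDK i I hI]; exact hf2 _ y hy)
      (fun j => hf3 b (Sum.inr j)) (fun j => hf2 _ y hy) (hEK b y)
  · intro i I hI
    rw [map_mul, mul_assoc]
    exact isIntegral_algebraMap.mul (hf4 _ (haS i I hI))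
  · rw [map_mul, mul_assoc]
    exact isIntegral_algebraMap.mul (hf4 _ hsS)
  · rw [map_mul, mul_assoc]
    exact isIntegral_algebraMap.mul (hf4 _ hsS')
  · intro i I hI y hy
    rw [map_mul, mul_assoc, hDK i I hI]
    exact isIntegral_algebraMap.mul (hi2 _ y hy)
  · intro b y hy
    exact int_comb3 (fun i => expo (Fin (n + 1)) (d i)) (fun i I => E b (aK i I))
      (fun i I => DK i I y) (fun j => E b (algebraMap k K (c' j))) (fun j => D' j y) (hi1 b y hy)
      (fun i I hI => hi3 b (Sum.inl ⟨(i, I), hI⟩))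
      (fun i I hI => by rw [hDK i I hI]; exact hi2 _ y hy)
      (fun j => hi3 b (Sum.inr j)) (fun j => hi2 _ y hy) (hEK b y)
  · intro i I hI
    rw [map_mul, mul_assoc]
    exact isIntegral_algebraMap.mul (hi4 _ (haS i I hI))
  · rw [map_mul, mul_assoc]
    exact isIntegral_algebraMap.mul (hi4 _ hsS)
  · rw [map_mul, mul_assoc]
    exact isIntegral_algebraMap.mul (hi4 _ hsS')

end Data3

end Pool.Agent.Lib.MP_44a246_ntM
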