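import Mathlib
import Pool.Agent.Lib.MP_44a246_nt.PolyMain2
import Pool.Agent.Lib.MP_44a246_ntM.M3

/-!
The main inequality with tangent spaces over `k`, for polynomials.
-/

namespace Pool.Agent.Lib.MP_44a246_ntM

open Pool.Agent.Lib.MP_e52354_nt Pool.Agent.Lib.MP_44a246_nt WithZero

universe u v w

section Main2

variable {k₀ k : Type*} {κ : Type u} {K : Type v} [Field k₀] [CharZero k₀] [Field k] [Field κ]
  [IsAlgClosed κ] [CharZero κ] [Field K]
  [Algebra k₀ κ] [Algebra κ K] [Algebra k₀ K] [IsScalarTower k₀ κ K]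
  [Algebra k₀ k] [Algebra k K] [IsScalarTower k₀ k K] [FinTrdeg k₀ k]

variable {n : ℕ} {ι : Type*} [Fintype ι]

include k₀ in
theorem poly_main3 [Algebra (Polynomial κ) K] [IsScalarTower κ (Polynomial κ) K]
    [Algebra (RatFunc κ) K] [IsScalarTower (Polynomial κ) (RatFunc κ) K]
    [Algebra (Rinf κ) K] [IsScalarTower (Rinf κ) (RatFunc κ) K]
    [FiniteDimensional (RatFunc κ) K]
    (ht : Transcendental κ (algebraMap (Polynomial κ) K Polynomial.X))
    (halg : Algebra.IsAlgebraic
      (IntermediateField.adjoin κ {algebraMap (Polynomial κ) K Polynomial.X}) K)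
    (d : ι → ℕ) (F : ι → MvPolynomial (Fin (n + 1)) K)
    (hF : ∀ i, (F i).IsHomogeneous (d i))
    (hgen : AlgebraicIndependent k
      (fun θ : Σ i, {I : Fin (n + 1) →₀ ℕ // I.degree = d i} => (F θ.1).coeff θ.2.1))
    {m : ℕ} (hm : 1 ≤ m) (hmd : ∀ i, m ≤ d i) (S : Set (Place κ K)) (hS : S.Finite) :
    ∃ C : ℕ, ∀ (L : Type w) [Field L] [Algebra K L] [FiniteDimensional K L] [Algebra κ L]
      [IsScalarTower κ K L] [Algebra k L] [IsScalarTower k K L]
      (x : Fin (n + 1) → L), x ≠ 0 → ∀ (Θ Θ₁ : Submodule L (Fin (n + 1) → L)),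
      Θ = tangent (Set.range (algebraMap k L)) x →
      Θ₁ = tangent (Set.range (algebraMap k L) ∪
        {y | ∃ i I, y = algebraMap K L ((F i).coeff I)}) x →
      Module.finrank L Θ₁ + Nat.card {i // MvPolynomial.aeval x (F i) = 0} ≤
        Module.finrank L Θ ∧
      ((∑ i, (d i : ℤ)) - Module.finrank L Θ) * height κ x + subHeight κ Θ ≤
        (truncCount κ F d S x : ℤ) + (ramDeg κ L K : ℤ) +
        ((Module.finrank L Θ : ℤ) - Module.finrank L Θ₁ -
          (Nat.card {i // MvPolynomial.aeval x (F i) = 0} : ℕ)) * (mu κ m x : ℤ) +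
        (C : ℤ) * (Module.finrank K L : ℤ) ∧ (mu κ m x : ℤ) ≤ height κ x ∧
      0 ≤ height κ x ∧ 0 ≤ subHeight κ Θ := by
  classical
  obtain ⟨s, hs0, hs⟩ := exists_nonunit S hS
  have hc : AlgebraicIndependent k (fun θ : {θ : ι × Expo n // θ.2 ∈
      expo (Fin (n + 1)) (d θ.1)} => (fun i I => (F i).coeff I) θ.1.1 θ.1.2) := by
    have h1 : (fun θ : {θ : ι × Expo n // θ.2 ∈ expo (Fin (n + 1)) (d θ.1)} =>
        (fun i I => (F i).coeff I) θ.1.1 θ.1.2) =
        (fun θ : Σ i, {I : Fin (n + 1) →₀ ℕ // I.degree = d i} => (F θ.1).coeff θ.2.1) ∘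
        (fun θ : {θ : ι × Expo n // θ.2 ∈ expo (Fin (n + 1)) (d θ.1)} =>
          ⟨θ.1.1, ⟨θ.1.2, mem_expo.mp θ.2⟩⟩) := rfl
    rw [h1]
    apply hgen.comp
    rintro ⟨⟨i, I⟩, h⟩ ⟨⟨i', I'⟩, h'⟩ heq
    simp only [Sigma.mk.injEq] at heq
    obtain ⟨h1, h2⟩ := heq
    subst h1
    simp only [heq_eq_eq, Subtype.mk.injEq] at h2
    subst h2
    rfl
  obtain ⟨C, hC⟩ := main_lib3 (k₀ := k₀) (k := k) (κ := κ) (K := K) (n := n) (d := d)
    (aK := fun i I => (F i).coeff I) ht halg hc hm hmd hs0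
  refine ⟨C, ?_⟩
  intro L _ _ _ _ _ _ _ x hx Θ Θ₁ hΘ hΘ₁
  let iX : Algebra (Polynomial κ) L :=
    ((algebraMap K L).comp (algebraMap (Polynomial κ) K)).toAlgebra
  let iK : Algebra (RatFunc κ) L := ((algebraMap K L).comp (algebraMap (RatFunc κ) K)).toAlgebra
  let iR : Algebra (Rinf κ) L := ((algebraMap K L).comp (algebraMap (Rinf κ) K)).toAlgebra
  have t1 : IsScalarTower (Polynomial κ) K L := IsScalarTower.of_algebraMap_eq' rfl
  have t2 : IsScalarTower (RatFunc κ) K L := IsScalarTower.of_algebraMap_eq' rfl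
  have t3 : IsScalarTower (Rinf κ) K L := IsScalarTower.of_algebraMap_eq' rfl
  have t4 : IsScalarTower κ (Polynomial κ) L := IsScalarTower.of_algebraMap_eq fun u => by
    rw [IsScalarTower.algebraMap_apply κ K L, IsScalarTower.algebraMap_apply κ (Polynomial κ) K]
    rfl
  have t5 : IsScalarTower (Polynomial κ) (RatFunc κ) L := IsScalarTower.of_algebraMap_eq fun u => by
    rw [IsScalarTower.algebraMap_apply (Polynomial κ) K L,
      IsScalarTower.algebraMap_apply (Polynomial κ) (RatFunc κ) K]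
    rfl
  have t6 : IsScalarTower (Rinf κ) (RatFunc κ) L := IsScalarTower.of_algebraMap_eq fun u => by
    rw [IsScalarTower.algebraMap_apply (Rinf κ) K L,
      IsScalarTower.algebraMap_apply (Rinf κ) (RatFunc κ) K]
    rfl
  have hfin : FiniteDimensional (RatFunc κ) L := FiniteDimensional.trans (RatFunc κ) K L
  have hyv : ∀ i, yv d (fun i I => algebraMap K L ((F i).coeff I)) x i =
      MvPolynomial.aeval x (F i) := fun i => (aeval_eq_Fval (F i) (hF i) x).symm
  let GP : Set (MvPolynomial (Fin (n + 1)) L) := {G' | G'.IsHomogeneous m ∧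
      MvPolynomial.eval x G' = 0 ∧ polyHeight κ G' ≤ (mu κ m x : ℤ)}
  let φ : MvPolynomial (Fin (n + 1)) L →ₗ[L] (Expo n → L) :=
    { toFun := fun G I => G.coeff I
      map_add' := fun G G' => by funext I; exact MvPolynomial.coeff_add I G G'
      map_smul' := fun c G => by funext I; exact MvPolynomial.coeff_smul I c G }
  have hφ : ∀ G I, φ G I = G.coeff I := fun G I => rfl
  obtain ⟨h0, h1⟩ := hC L x hx (mu κ m x) (φ '' GP)
    (by
      rintro _ ⟨G, ⟨hG1, hG2, -⟩, rfl⟩
      rw [← hG2, eval_eq_Fval G hG1]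
      rfl)
    (by
      rintro _ ⟨G, ⟨hG1, -, hG3⟩, rfl⟩
      refine le_trans (le_of_eq ?_) hG3
      unfold polyHeight
      refine finsum_congr fun v => ?_
      rw [← sup_support_eq v.1 hG1]
      rfl)
    (by
      intro G hG
      have h2 := mu_spec (κ := κ) x hx hm (toPoly_homog m G) (by rw [toPoly_eval, hG])
      refine ⟨φ (toPoly m G), ?_, fun I hI => ?_⟩
      · rw [← Submodule.map_span]
        exact Submodule.mem_map_of_mem h2
      · rw [hφ, toPoly_coeff m G hI]) Θ Θ₁ hΘ (by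
      rw [hΘ₁]
      refine tangent_congr fun E => ?_
      constructor
      · intro h y hy
        rcases hy with hy | ⟨i, I, hI, rfl⟩
        · exact h y (Or.inl hy)
        · exact h _ (Or.inr ⟨i, I, rfl⟩)
      · intro h y hy
        rcases hy with hy | ⟨i, I, rfl⟩
        · exact h y (Or.inl hy)
        · by_cases hI : I ∈ expo (Fin (n + 1)) (d i)
          · exact h _ (Or.inr ⟨i, I, hI, rfl⟩)
          · have h2 : (F i).coeff I = 0 := by
              by_contra h3
              apply hI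
              rw [mem_expo]
              have h4 := hF i h3
              rw [← h4, Finsupp.degree_eq_weight_one]
              rfl
            rw [h2, map_zero, map_zero])
  -- comparison of the counting functions
  have htr : {w : Place κ L | (∀ v ∈ S, ¬ (w.1.comap (algebraMap K L)).IsEquiv v.1) ∧
      ∃ i, MvPolynomial.aeval x (F i) ≠ 0 ∧
        w.1 (MvPolynomial.aeval x (F i)) < vmax w.1 x ^ d i}.Finite := by
    have hfin : ((⋃ j ∈ Finset.univ.filter (fun j => MvPolynomial.aeval x (F j) ≠ 0),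
        {v : Place κ L | v.1 (MvPolynomial.aeval x (F j)) ≠ 1}) ∪
        {v : Place κ L | vmax v.1 x ≠ 1}).Finite := by
      refine Set.Finite.union (Set.Finite.biUnion (Finset.finite_toSet _) fun j hj => ?_)
        (vmax_finite hx)
      have hj' : MvPolynomial.aeval x (F j) ≠ 0 :=
        (Finset.mem_filter.mp (Finset.mem_coe.mp hj)).2
      exact place_finite hj'
    refine hfin.subset fun v hv => ?_
    obtain ⟨-, j, hj, hlt⟩ := hv
    by_contra hcon
    simp only [Set.mem_union, Set.mem_iUnion, not_or, not_exists, Finset.mem_filter] at hcon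
    obtain ⟨hc1, hc2⟩ := hcon
    have h1 : v.1 (MvPolynomial.aeval x (F j)) = 1 := by
      by_contra h2
      exact hc1 j ⟨Finset.mem_univ _, hj⟩ h2
    have h2 : vmax v.1 x = 1 := by
      by_contra h3
      exact hc2 h3
    rw [h2, one_pow] at hlt
    exact absurd h1 hlt.ne
  have hsub : truncSet (κ := κ) d (fun i I => (F i).coeff I) s x ⊆
      {w : Place κ L | (∀ v ∈ S, ¬ (w.1.comap (algebraMap K L)).IsEquiv v.1) ∧
      ∃ i, MvPolynomial.aeval x (F i) ≠ 0 ∧
        w.1 (MvPolynomial.aeval x (F i)) < vmax w.1 x ^ d i} := by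
    rintro w ⟨hw1, j, hj1, hj2⟩
    refine ⟨fun v hv hequiv => ?_, j, ?_, ?_⟩
    · refine hs v hv ?_
      exact (hequiv.eq_one_iff_eq_one).mp hw1
    · rw [← hyv]; exact hj1
    · rw [← hyv]; exact hj2
  have hN : ((truncSet (κ := κ) d (fun i I => (F i).coeff I) s x).ncard : ℤ) ≤
      (truncCount κ F d S x : ℤ) := by
    exact_mod_cast Set.ncard_le_ncard hsub htr
  have hq : Nat.card {i // yv d (fun i I => algebraMap K L ((F i).coeff I)) x i = 0} =
      Nat.card {i // MvPolynomial.aeval x (F i) = 0} := by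
    simp only [hyv]
  rw [hq] at h0 h1
  have hsub0 : 0 ≤ subHeight κ Θ := by
    refine height_nonneg fun h0 => ?_
    have hli : LinearIndependent L (fun i => (Module.finBasis L Θ i : Fin (n + 1) → L)) :=
      (Module.finBasis L Θ).linearIndependent.map' Θ.subtype (Submodule.ker_subtype Θ)
    obtain ⟨A, hA⟩ := exists_minor_ne (W := Θ) _ hli
    exact hA (congrFun h0 A)
  refine ⟨h0, ?_, mu_le x hx hm, height_nonneg hx, hsub0⟩
  push_cast at h1 ⊢
  linarith

end Main2

end Pool.Agent.Lib.MP_44a246_ntM
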