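import Mathlib
import Pool.Agent.Lib.MP_44a246_nt.Instances
import Pool.Agent.Lib.MP_44a246_nt.Terms
import Pool.Agent.Lib.MP_44a246_ntM.M4

/-!
Elementary properties of tangent spaces, and the main theorem over `k`.
-/

namespace Pool.Agent.Lib.MP_44a246_ntM

open Pool.Agent.Lib.MP_e52354_nt Pool.Agent.Lib.MP_44a246_nt

universe u v w

section Finrank

variable {k L : Type*} [Field k] [CharZero k] [Field L] [Algebra k L] {n : ℕ}

open Cardinal in
/-- the dimension of the tangent space is at most the dimension of the closure of the point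
over `k`, plus one -/
theorem finrank_tangent_le {x : Fin (n + 1) → L} (hx : x ≠ 0) {T : ℕ}
    (hT : Algebra.trdeg k (pointField k x) ≤ T) :
    Module.finrank L (tangent (Set.range (algebraMap k L)) x) ≤ T + 1 := by
  classical
  obtain ⟨l, hl⟩ : ∃ l, x l ≠ 0 := by
    by_contra hcon
    push Not at hcon
    exact hx (funext hcon)
  let q : Fin (n + 1) → L := fun k => x k / x l
  obtain ⟨B, hB⟩ := (AlgebraicIndependent.matroid k L).exists_isBasis (Set.range q)
  obtain ⟨hBind, hBsub, hBalg⟩ := AlgebraicIndependent.matroid_isBasis_iff.mp hB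
  have hBfin : B.Finite := (Set.finite_range q).subset hBsub
  have : Fintype B := hBfin.fintype
  have hmemF : ∀ b ∈ B, b ∈ pointField k x := by
    intro b hb
    obtain ⟨j, rfl⟩ := hBsub hb
    exact IntermediateField.subset_adjoin _ _ ⟨j, l, rfl⟩
  have hcard : Fintype.card B ≤ T := by
    let f : B → pointField k x := fun b => ⟨b, hmemF b b.2⟩
    have h1 : AlgebraicIndependent k f := by
      refine AlgebraicIndependent.of_comp (pointField k x).val ?_
      exact hBind
    have h2 := h1.cardinalMk_le_trdeg.trans hT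
    rw [mk_fintype] at h2
    exact_mod_cast h2
  choose kb hkb using fun b : B => hBsub b.2
  let φ : (Fin (n + 1) → L) →ₗ[L] (L × (B → L)) := LinearMap.prod (LinearMap.proj l)
    (LinearMap.pi fun b => LinearMap.proj (kb b))
  have hinj : Function.Injective (φ.domRestrict (tangent (Set.range (algebraMap k L)) x)) := by
    rw [injective_iff_map_eq_zero]
    rintro ⟨w, hw⟩ h0
    have h0l : w l = 0 := congrArg Prod.fst h0
    have h0b : ∀ b : B, w (kb b) = 0 := fun b => congrFun (congrArg Prod.snd h0) b
    obtain ⟨c, E, hE', hwE⟩ := hw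
    have hE : ∀ a : k, E (algebraMap k L a) = 0 := fun a => hE' _ ⟨a, rfl⟩
    have hxq : ∀ j, x j = x l * q j := fun j => by
      show x j = x l * (x j / x l)
      field_simp
    have hwq : ∀ j, w j = x l * E (q j) := by
      intro j
      have h1 : E (x j) = x l * E (q j) + q j * E (x l) := by
        conv_lhs => rw [hxq j]
        rw [Derivation.leibniz, smul_eq_mul, smul_eq_mul]
      have h2 : c * x l + E (x l) = 0 := by rw [← hwE l]; exact h0l
      have h3 : E (x l) = - (c * x l) := by linear_combination h2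
      rw [hwE, h1, h3, hxq j]
      ring
    have hEB : ∀ b ∈ B, E b = 0 := by
      intro b hb
      have h1 := h0b ⟨b, hb⟩
      rw [hwq, hkb] at h1
      exact (mul_eq_zero.mp h1).resolve_left hl
    have hEq : ∀ j, E (q j) = 0 := by
      intro j
      refine der_eq_zero (toLinearDer E hE) B hEB ?_
      have h1 := hBalg (q j) ⟨j, rfl⟩
      obtain ⟨p, hp0, hp⟩ := h1
      let f : Algebra.adjoin k B →+* IntermediateField.adjoin k B :=
        (Subalgebra.inclusion (IntermediateField.algebra_adjoin_le_adjoin k B)).toRingHom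
      have hf : Function.Injective f := Subalgebra.inclusion_injective _
      refine ⟨p.map f, (Polynomial.map_ne_zero_iff hf).mpr hp0, ?_⟩
      rw [Polynomial.aeval_def, Polynomial.eval₂_map]
      exact hp
    apply Subtype.ext
    funext j
    show w j = 0
    rw [hwq, hEq, mul_zero]
  have h1 := LinearMap.finrank_le_finrank_of_injective hinj
  rw [Module.finrank_prod, Module.finrank_self, Module.finrank_fintype_fun_eq_card] at h1
  omega

omit [CharZero k] in
theorem one_le_finrank_tangent {A : Set L} {x : Fin (n + 1) → L} (hx : x ≠ 0) :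
    1 ≤ Module.finrank L (tangent A x) := by
  have hmem : x ∈ tangent A x := ⟨1, 0, fun a _ => rfl, fun j => by simp⟩
  have : Nontrivial (tangent A x) := ⟨⟨⟨x, hmem⟩, 0, fun h => hx (congrArg Subtype.val h)⟩⟩
  exact Module.finrank_pos

end Finrank

section Main

/-- The truncated second main theorem for forms generic over a field `k` of finite transcendence
degree over a field of constants. -/
theorem main_M {k₀ k : Type*} {κ : Type u} {K : Type v} [Field k₀] [CharZero k₀] [Field k]
    [Field κ] [IsAlgClosed κ] [Field K] [Algebra k₀ κ] [Algebra κ K] [Algebra k₀ K]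
    [IsScalarTower k₀ κ K] [Algebra k₀ k] [Algebra k K] [IsScalarTower k₀ k K] [FinTrdeg k₀ k]
    {t : K} (ht : Transcendental κ t) [FiniteDimensional (IntermediateField.adjoin κ {t}) K]
    {n : ℕ} {ι : Type*} [Fintype ι] (d : ι → ℕ) (F : ι → MvPolynomial (Fin (n + 1)) K)
    (hF : ∀ i, (F i).IsHomogeneous (d i)) (hgen : GenericCoeffs k d F)
    {m : ℕ} (hm : 1 ≤ m) (hmd : ∀ i, m ≤ d i) (S : Set (Place κ K)) (hS : S.Finite) :
    ∃ C : ℕ, ∀ (L : Type w) [Field L] [Algebra K L] [FiniteDimensional K L] [Algebra κ L]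
      [IsScalarTower κ K L] [Algebra k L] [IsScalarTower k K L]
      (x : Fin (n + 1) → L), x ≠ 0 → ∀ (Θ Θ' : Submodule L (Fin (n + 1) → L)) (a b q μ : ℤ),
      Θ = tangent (Set.range (algebraMap k L)) x → Θ' = tangent (coeffSet k L F) x →
      a = Module.finrank L Θ → b = Module.finrank L Θ' → q = vanCard F x → μ = mu κ m x →
      (b + q ≤ a ∧ μ ≤ height κ x ∧
      (∑ i, d i - a) * height κ x + subHeight κ Θ ≤
        truncCount κ F d S x + ramDeg κ L K + (a - b - q) * μ + C * Module.finrank K L) ∧
      ∀ r : ℕ, Algebra.trdeg k (pointField k x) ≤ r →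
        (∑ i, d i + q - 2 * r - 1) * height κ x ≤
          truncCount κ F d S x + ramDeg κ L K + C * Module.finrank K L := by
  have hcκ : CharZero κ := charZero_of_injective_algebraMap (algebraMap k₀ κ).injective
  have hck : CharZero k := charZero_of_injective_algebraMap (algebraMap k₀ k).injective
  refine with_instances ht ?_
  intro _ _ _ _ _ _ _ h1 h2
  obtain ⟨C, hC⟩ := poly_main3 (k₀ := k₀) h1 h2 d F hF hgen hm hmd S hS
  refine ⟨C, ?_⟩
  intro L _ _ _ _ _ _ _ x hx Θ Θ' a b q μ hΘ hΘ' ha hb hq hμ
  obtain ⟨h3, h4, h5, h6, h7⟩ := hC L x hx Θ Θ' hΘ hΘ'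
  have hb1 : (1 : ℤ) ≤ b := by
    rw [hb, hΘ']
    exact_mod_cast one_le_finrank_tangent hx
  subst ha hb hq hμ
  have h8 : (Module.finrank L Θ' : ℤ) + vanCard F x ≤ Module.finrank L Θ := by
    unfold vanCard
    exact_mod_cast h3
  have h9 : (∑ i, (d i : ℤ) - Module.finrank L Θ) * height κ x + subHeight κ Θ ≤
      truncCount κ F d S x + ramDeg κ L K +
        (Module.finrank L Θ - Module.finrank L Θ' - vanCard F x) * mu κ m x +
        C * Module.finrank K L := by
    unfold vanCard
    push_cast
    push_cast at h4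
    linarith
  refine ⟨⟨h8, h5, by push_cast; exact h9⟩, fun r hr => ?_⟩
  have hΘr : (Module.finrank L Θ : ℤ) ≤ r + 1 := by
    rw [hΘ]
    exact_mod_cast finrank_tangent_le hx hr
  have h10 : ((Module.finrank L Θ : ℤ) - Module.finrank L Θ' - vanCard F x) * mu κ m x ≤
      ((Module.finrank L Θ : ℤ) - Module.finrank L Θ' - vanCard F x) * height κ x :=
    mul_le_mul_of_nonneg_left h5 (by linarith)
  have h11 : (0 : ℤ) ≤ (2 * (r + 1 - Module.finrank L Θ) + (Module.finrank L Θ' - 1)) *
      height κ x := mul_nonneg (by linarith) h6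
  push_cast
  nlinarith [h9, h10, h11, h7]

end Main

end Pool.Agent.Lib.MP_44a246_ntM
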